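import Pool.Agent.Helper91.SG.M1

/-!
# One-relator algebras: machine data and statements of the parts (MP_b71150_al)
-/

set_option autoImplicit false

namespace Pool.Agent.Helper48.OR

open Pool.Agent.Helper91.SG

/-- The letters of the monoid of a stack machine. -/
inductive Om (Q K A : Type) : Type
  | st (q : Q) : Om Q K A
  | lt (k : K) (a : A) : Om Q K A

/-- The defining relations of the monoid of a stack machine `δ` with final state `qr`. -/
inductive Rel {Q K A : Type} (δ : Q → Cmd Q K A) (qr : Q) : List (Om Q K A) → List (Om Q K A) → Prop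
  | jump (q q' : Q) (h : δ q = .jump q') : Rel δ qr [.st q] [.st q']
  | push (q : Q) (k : K) (a : A) (q' : Q) (h : δ q = .push k a q') :
      Rel δ qr [.st q] [.st q', .lt k a]
  | pop (q : Q) (k : K) (f : A → Q) (a : A) (h : δ q = .pop k f) :
      Rel δ qr [.st q, .lt k a] [.st (f a)]
  | halt (k : K) (a : A) : Rel δ qr [.st qr, .lt k a] [.st qr]
  | comm (k : K) (a : A) (l : K) (b : A) (h : k ≠ l) :
      Rel δ qr [.lt k a, .lt l b] [.lt l b, .lt k a]

/-- The word of a tuple of stacks. -/
def wz {Q K A : Type} (ks : List K) (z : K → List A) : List (Om Q K A) :=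
  ks.flatMap fun k => (z k).map (Om.lt k)

/-- Reachability of the final state. -/
def Rch {Q K A : Type} [DecidableEq K] (δ : Q → Cmd Q K A) (qr : Q) (c : Q × (K → List A)) : Prop :=
  ∃ c', Relation.ReflTransGen (fun x y => step δ x = some y) c c' ∧ c'.1 = qr

/-- Part M1 (helper84): in every monoid satisfying the relations the final state is reached. -/
def StM1 : Prop :=
  ∀ (Q K A : Type) (_ : DecidableEq K) (δ : Q → Cmd Q K A) (qr : Q) (E : Type) (_ : Monoid E)
    (T : Om Q K A → E) (ks : List K) (c : Q × (K → List A)),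
    (∀ u v, Rel δ qr u v → (u.map T).prod = (v.map T).prod) → ks.Nodup → (∀ k, k ∈ ks) →
    Rch δ qr c → ((Om.st c.1 :: wz ks c.2).map T).prod = T (.st qr)

/-- Part M2 (helper2): a module in which the relations hold and which detects reachability. -/
def StM2 : Prop :=
  ∀ (Q K A : Type) (_ : DecidableEq K) (δ : Q → Cmd Q K A) (qr : Q) (F : Type) (_ : CommRing F)
    (_ : Nontrivial F), δ qr = .halt →
    ∃ (N : Type) (_ : AddCommGroup N) (_ : Module F N) (s0 : Om Q K A → Module.End F N) (n0 : N),
      (∀ u v, Rel δ qr u v → (u.map s0).prod = (v.map s0).prod) ∧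
      ∀ (ks : List K) (c : Q × (K → List A)), ks.Nodup → (∀ k, k ∈ ks) →
        ((Om.st c.1 :: wz ks c.2).map s0).prod n0 = s0 (.st qr) n0 → Rch δ qr c

/-- Part M3 (helper32): there are finitely many relations; the source of undecidability; the
computability of the list of terms. -/
def StM3 : Prop :=
  (∀ (Q K A : Type) (_ : Finite Q) (_ : Finite K) (_ : Finite A) (δ : Q → Cmd Q K A) (qr : Q),
    {r : List (Om Q K A) × List (Om Q K A) | Rel δ qr r.1 r.2}.Finite) ∧
  (∃ (Q : Type) (_ : Finite Q) (δ : Q → Cmd Q Turing.PartrecToTM2.K' (Option Turing.PartrecToTM2.Γ'))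
    (q0 qr : Q), δ qr = .halt ∧ ¬ ComputablePred fun n : ℕ => Rch δ qr (q0, inpStk n)) ∧
  (∀ (Q : Type) (q0 : Q) (N : ℕ) (e : Om Q Turing.PartrecToTM2.K' (Option Turing.PartrecToTM2.Γ') → Fin N)
    (C : Type) (_ : Primcodable C) (t t' : List (C × List (Fin N))) (v : List (Fin N)),
    Computable fun n : ℕ =>
      (t.map fun s => (s.1, (((Om.st q0 :: wz [.main, .rev, .aux, .stack] (inpStk n)).map e) ++ s.2))) ++
      (t'.map fun s => (s.1, v ++ s.2)))

end Pool.Agent.Helper48.OR
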