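import Mathlib

/-!
# Noncommutative polynomials as lists of terms (MP_b71150_al)
-/

set_option autoImplicit false

namespace Pool.Agent.Helper48.OR

/-- The noncommutative polynomial given by a list of terms `(code of the coefficient, word)`. -/
def ncPoly (F : Type) [CommRing F] {C : Type} (c : C → F) {n : ℕ} (g : List (C × List (Fin n))) :
    FreeAlgebra F (Fin n) :=
  (g.map fun t => c t.1 • (t.2.map (FreeAlgebra.ι F)).prod).sum

/-- The sign of a boolean. -/
def sgn (F : Type) [CommRing F] (b : Bool) : F := if b then 1 else -1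

section

variable (F : Type) [CommRing F] {C : Type} (c : C → F) {n : ℕ}

theorem ncPoly_cons (s : C × List (Fin n)) (t : List (C × List (Fin n))) :
    ncPoly F c (s :: t) = c s.1 • (s.2.map (FreeAlgebra.ι F)).prod + ncPoly F c t := by
  simp [ncPoly]

theorem ncPoly_append (s t : List (C × List (Fin n))) :
    ncPoly F c (s ++ t) = ncPoly F c s + ncPoly F c t := by
  simp [ncPoly]

theorem ncPoly_code {C' : Type} (h : C' → C) (t : List (C' × List (Fin n))) :
    ncPoly F c (t.map fun s => (h s.1, s.2)) = ncPoly F (fun a => c (h a)) t := by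
  simp [ncPoly, Function.comp_def]

theorem ncPoly_prefix (w : List (Fin n)) (t : List (C × List (Fin n))) :
    ncPoly F c (t.map fun s => (s.1, w ++ s.2)) =
      (w.map (FreeAlgebra.ι F)).prod * ncPoly F c t := by
  induction t with
  | nil => simp [ncPoly]
  | cons s t ih =>
    rw [List.map_cons, ncPoly_cons, ncPoly_cons, ih, mul_add]
    simp

theorem ncPoly_neg (t : List (C × List (Fin n))) :
    ncPoly F (fun a => - c a) t = - ncPoly F c t := by
  induction t with
  | nil => simp [ncPoly]
  | cons s t ih =>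
    rw [ncPoly_cons, ncPoly_cons, ih, neg_smul, neg_add]

/-- The product of lists of terms. -/
def mulTerms {n : ℕ} (s t : List (Bool × List (Fin n))) : List (Bool × List (Fin n)) :=
  s.flatMap fun a => t.map fun b => (a.1 == b.1, a.2 ++ b.2)

theorem sgn_beq (a b : Bool) : sgn F (a == b) = sgn F a * sgn F b := by
  cases a <;> cases b <;> simp [sgn]

theorem ncPoly_mulTerms (s t : List (Bool × List (Fin n))) :
    ncPoly F (sgn F) (mulTerms s t) = ncPoly F (sgn F) s * ncPoly F (sgn F) t := by
  induction s with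
  | nil => simp [mulTerms, ncPoly]
  | cons a s ih =>
    have h1 : mulTerms (a :: s) t = (t.map fun b => (a.1 == b.1, a.2 ++ b.2)) ++ mulTerms s t := by
      simp [mulTerms]
    have h2 : ∀ t : List (Bool × List (Fin n)),
        ncPoly F (sgn F) (t.map fun b => (a.1 == b.1, a.2 ++ b.2)) =
        (sgn F a.1 • (a.2.map (FreeAlgebra.ι F)).prod) * ncPoly F (sgn F) t := by
      intro t
      induction t with
      | nil => simp [ncPoly]
      | cons b t ih =>
        rw [List.map_cons, ncPoly_cons, ncPoly_cons, ih, mul_add, sgn_beq]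
        simp [mul_smul, smul_comm (sgn F a.1) (sgn F b.1)]
    rw [h1, ncPoly_append, ih, h2, ncPoly_cons, add_mul]

theorem ncPoly_replicate (b : Bool) (k : ℕ) :
    ncPoly F (sgn F) (List.replicate k ((b, []) : Bool × List (Fin n))) =
      algebraMap F (FreeAlgebra F (Fin n)) (k * sgn F b) := by
  induction k with
  | zero => simp [ncPoly]
  | succ k ih =>
    rw [List.replicate_succ, ncPoly_cons, ih, Algebra.algebraMap_eq_smul_one,
      Algebra.algebraMap_eq_smul_one, List.map_nil, List.prod_nil, ← add_smul]
    congr 1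
    push_cast
    ring

end

theorem exists_terms (n : ℕ) (G : FreeAlgebra ℤ (Fin n)) :
    ∃ t : List (Bool × List (Fin n)), ∀ (F : Type) [CommRing F],
      ncPoly F (sgn F) t =
        FreeAlgebra.lift ℤ (FreeAlgebra.ι F : Fin n → FreeAlgebra F (Fin n)) G := by
  induction G using FreeAlgebra.induction with
  | grade0 r =>
    refine ⟨List.replicate r.natAbs (decide (0 ≤ r), []), fun F _ => ?_⟩
    rw [ncPoly_replicate, AlgHom.commutes]
    have h : ((r.natAbs : F) * sgn F (decide (0 ≤ r))) = ((r : ℤ) : F) := by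
      obtain ⟨k, rfl | rfl⟩ := r.eq_nat_or_neg
      · simp [sgn]
      · rcases Nat.eq_zero_or_pos k with rfl | hk
        · simp [sgn]
        · have h2 : k ≠ 0 := hk.ne'
          simp [sgn, h2]
    rw [h]
    simp
  | grade1 x =>
    refine ⟨[(true, [x])], fun F _ => ?_⟩
    simp [ncPoly, sgn]
  | mul a b ha hb =>
    obtain ⟨s, hs⟩ := ha
    obtain ⟨t, ht⟩ := hb
    refine ⟨mulTerms s t, fun F _ => ?_⟩
    rw [ncPoly_mulTerms, hs, ht, map_mul]
  | add a b ha hb =>
    obtain ⟨s, hs⟩ := ha
    obtain ⟨t, ht⟩ := hb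
    refine ⟨s ++ t, fun F _ => ?_⟩
    rw [ncPoly_append, hs, ht, map_add]

end Pool.Agent.Helper48.OR
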