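import Pool.Agent.Helper48.OR.Embed
import Pool.Agent.Helper48.OR.Poly
import Pool.Agent.Helper48.OR.Defs

/-!
# The word problem for one-relator associative algebras: assembly (MP_b71150_al)
-/

set_option autoImplicit false

namespace Pool.Agent.Helper48.OR

open Pool.Agent.Helper91.SG

theorem finite_L (Ω : Type) [Finite Ω] (m : ℕ) : Finite (L Ω m) := by
  let g : L Ω m → Option (Option (Fin m ⊕ Ω)) := fun l => match l with
    | .x => none
    | .z => some none
    | .y i => some (some (.inl i))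
    | .s ω => some (some (.inr ω))
  refine Finite.of_injective g ?_
  intro a b h
  cases a <;> cases b <;> simp_all [g]

theorem finite_Om (Q K A : Type) [Finite Q] [Finite K] [Finite A] : Finite (Om Q K A) := by
  let g : Om Q K A → Q ⊕ (K × A) := fun l => match l with
    | .st q => .inl q
    | .lt k a => .inr (k, a)
  refine Finite.of_injective g ?_
  intro a b h
  cases a <;> cases b <;> simp_all [g]

theorem map_wd_ring {Ω : Type} {A A' : Type*} [Ring A] [Ring A'] (φ : A →+* A') (s : Ω → A)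
    (u : List Ω) : φ (wd s u) = wd (fun ω => φ (s ω)) u :=
  map_wd (φ : A →* A') s u

section

variable {Q K A : Type} [DecidableEq K] (δ : Q → Cmd Q K A) (qr : Q)
  (os : List (Om Q K A)) (R : List (List (Om Q K A) × List (Om Q K A)))
  (F : Type) [CommRing F] {n : ℕ} (e : L (Om Q K A) (num os R) ≃ Fin n)

/-- The letters in the free algebra. -/
def aF : L (Om Q K A) (num os R) → FreeAlgebra F (Fin n) := fun l => FreeAlgebra.ι F (e l)

/-- The element `(u - v) e`. -/
def gF (u v : List (Om Q K A)) : FreeAlgebra F (Fin n) :=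
  (wd (fun ω => aF os R F e (.s ω)) u - wd (fun ω => aF os R F e (.s ω)) v) *
    ee os R (aF os R F e)

theorem mem_of_reach (hM1 : StM1) (hos : ∀ ω, ω ∈ os) (hR : ∀ u v, Rel δ qr u v → (u, v) ∈ R)
    (ks : List K) (hnd : ks.Nodup) (hks : ∀ k, k ∈ ks) (c : Q × (K → List A))
    (hc : Rch δ qr c) :
    gF os R F e (Om.st c.1 :: wz ks c.2) [Om.st qr] ∈
      TwoSidedIdeal.span {ff os R (aF os R F e)} := by
  set I := TwoSidedIdeal.span {ff os R (aF os R F e)} with hI
  let π : FreeAlgebra F (Fin n) →+* I.ringCon.Quotient := I.ringCon.mk'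
  let a : L (Om Q K A) (num os R) → I.ringCon.Quotient := fun l => π (aF os R F e l)
  have hker : ∀ r, π r = 0 ↔ r ∈ I := by
    intro r
    rw [← TwoSidedIdeal.mem_ker]
    rw [TwoSidedIdeal.ker_ringCon_mk']
  have ha : ff os R a = 0 := by
    have h := map_ff os R π (aF os R F e)
    rw [← h, hker]
    exact TwoSidedIdeal.subset_span rfl
  let T : Om Q K A → Function.End {v : I.ringCon.Quotient // a .x * v = 0} := fun ω v =>
    ⟨a (.s ω) * v.1, forced_s os R a ha (hos ω) v.1 v.2⟩
  have hT : ∀ (u : List (Om Q K A)) (v : {v : I.ringCon.Quotient // a .x * v = 0}),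
      ((u.map T).prod v).1 = wd (fun ω => a (.s ω)) u * v.1 := by
    intro u
    induction u with
    | nil =>
      intro v
      rw [show wd (fun ω => a (.s ω)) [] = 1 from rfl, one_mul]
      rfl
    | cons ω u ih =>
      intro v
      rw [List.map_cons, List.prod_cons]
      have h1 : (T ω * (u.map T).prod) v = T ω ((u.map T).prod v) := rfl
      rw [h1]
      have h2 : (T ω ((u.map T).prod v)).1 = a (.s ω) * ((u.map T).prod v).1 := rfl
      rw [h2, ih]
      simp [wd, mul_assoc]
  have h1 := hM1 Q K A inferInstance δ qr _ inferInstance T ks c (fun u v huv => by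
    funext w
    apply Subtype.ext
    rw [hT, hT]
    exact forced_rel os R a ha hos (hR u v huv) w.1 w.2) hnd hks hc
  have h2 := congrArg Subtype.val (congrFun h1 ⟨ee os R a, x_ee os R a ha⟩)
  rw [hT] at h2
  rw [← hker]
  have h3 : π (gF os R F e (Om.st c.1 :: wz ks c.2) [Om.st qr]) =
      (wd (fun ω => a (.s ω)) (Om.st c.1 :: wz ks c.2) - wd (fun ω => a (.s ω)) [Om.st qr]) *
        ee os R a := by
    unfold gF
    rw [map_mul, map_sub, map_ee, map_wd_ring, map_wd_ring]
  rw [h3, sub_mul, h2]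
  have h4 : wd (fun ω => a (.s ω)) [Om.st qr] = a (.s (.st qr)) := by simp [wd]
  rw [h4]
  exact sub_self _

theorem reach_of_mem (hM2 : StM2) [Nontrivial F] (hqr : δ qr = .halt)
    (hR : ∀ r ∈ R, Rel δ qr r.1 r.2)
    (ks : List K) (hnd : ks.Nodup) (hks : ∀ k, k ∈ ks) (c : Q × (K → List A))
    (hc : gF os R F e (Om.st c.1 :: wz ks c.2) [Om.st qr] ∈
      TwoSidedIdeal.span {ff os R (aF os R F e)}) : Rch δ qr c := by
  obtain ⟨N, i1, i2, s0, n0, hs, hr⟩ := hM2 Q K A inferInstance δ qr F inferInstance inferInstance hqr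
  refine hr ks c hnd hks ?_
  let φ : FreeAlgebra F (Fin n) →ₐ[F] Module.End F (ℕ → N) :=
    FreeAlgebra.lift F (fun i => aM os R s0 (e.symm i))
  have hφ : ∀ l, φ (aF os R F e l) = aM os R s0 l := by
    intro l
    simp [φ, aF]
  have hf : φ.toRingHom (ff os R (aF os R F e)) = 0 := by
    rw [map_ff]
    have h : (fun l => φ.toRingHom (aF os R F e l)) = aM os R s0 := funext hφ
    rw [h]
    exact ff_aM os R s0 (fun r hr => hs _ _ (hR r hr))
  have hle : TwoSidedIdeal.span {ff os R (aF os R F e)} ≤ TwoSidedIdeal.ker φ.toRingHom := by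
    rw [TwoSidedIdeal.span_le]
    intro r hr
    rw [Set.mem_singleton_iff] at hr
    rw [hr]
    exact (TwoSidedIdeal.mem_ker _).2 hf
  have h1 := (TwoSidedIdeal.mem_ker _).1 (hle hc)
  have h2 : φ.toRingHom (gF os R F e (Om.st c.1 :: wz ks c.2) [Om.st qr]) =
      (wd (sM s0) (Om.st c.1 :: wz ks c.2) - wd (sM s0) [Om.st qr]) *
        ee os R (aM os R s0) := by
    unfold gF
    have h : (fun l => φ.toRingHom (aF os R F e l)) = aM os R s0 := funext hφ
    have h' : ∀ u, φ.toRingHom (wd (fun ω => aF os R F e (.s ω)) u) = wd (sM s0) u := by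
      intro u
      have h3 := map_wd_ring φ.toRingHom (fun ω => aF os R F e (.s ω)) u
      refine h3.trans ?_
      congr 1
      funext ω
      exact hφ _
    rw [map_mul, map_sub, map_ee, h', h', h]
  rw [h2] at h1
  have h3 := congrFun (LinearMap.congr_fun h1 ((io : N →ₗ[F] (ℕ → N)) n0)) 0
  rw [Module.End.mul_apply, ee_aM, LinearMap.sub_apply, wd_sM, wd_sM] at h3
  have h4 : wd s0 (Om.st c.1 :: wz ks c.2) n0 - wd s0 [Om.st qr] n0 = 0 := h3
  have h5 : wd s0 [Om.st qr] = s0 (.st qr) := by simp [wd]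
  rw [h5] at h4
  exact sub_eq_zero.1 h4

end

/-- The final statement. -/
def StFinal : Prop :=
  ∃ (n : ℕ) (f : List (ℤ × List (Fin n))),
    ∀ (F : Type) [Field F] (C : Type) [Primcodable C] (c : C → F),
      (∃ a, c a = 1) → (∃ a, c a = -1) →
      ¬ ComputablePred fun g : List (C × List (Fin n)) =>
        ncPoly F c g ∈ TwoSidedIdeal.span {ncPoly F (fun k : ℤ => (k : F)) f}

theorem final (hM1 : StM1) (hM2 : StM2) (hM3 : StM3) : StFinal := by
  classical
  obtain ⟨hfin, ⟨Q, fQ, δ, q0, qr, hqr, hund⟩, hcomp⟩ := hM3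
  have fK : Finite Turing.PartrecToTM2.K' :=
    Finite.of_surjective (fun i : Fin 4 => match i with
      | 0 => Turing.PartrecToTM2.K'.main
      | 1 => .rev
      | 2 => .aux
      | 3 => .stack) (by
        intro k
        cases k
        · exact ⟨0, rfl⟩
        · exact ⟨1, rfl⟩
        · exact ⟨2, rfl⟩
        · exact ⟨3, rfl⟩)
  have fA : Finite (Option Turing.PartrecToTM2.Γ') := inferInstance
  have fO : Finite (Om Q Turing.PartrecToTM2.K' (Option Turing.PartrecToTM2.Γ')) := finite_Om _ _ _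
  have : Fintype (Om Q Turing.PartrecToTM2.K' (Option Turing.PartrecToTM2.Γ')) := Fintype.ofFinite _
  let os : List (Om Q Turing.PartrecToTM2.K' (Option Turing.PartrecToTM2.Γ')) :=
    Finset.univ.toList
  have hos : ∀ ω, ω ∈ os := fun ω => Finset.mem_toList.2 (Finset.mem_univ ω)
  have hf := hfin Q Turing.PartrecToTM2.K' (Option Turing.PartrecToTM2.Γ') fQ fK fA δ qr
  let R := hf.toFinset.toList
  have hR : ∀ r, r ∈ R ↔ Rel δ qr r.1 r.2 := by
    intro r
    simp [R]
  have fL := finite_L (Om Q Turing.PartrecToTM2.K' (Option Turing.PartrecToTM2.Γ')) (num os R)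
  obtain ⟨n, ⟨e⟩⟩ := Finite.exists_equiv_fin
    (L (Om Q Turing.PartrecToTM2.K' (Option Turing.PartrecToTM2.Γ')) (num os R))
  let ks : List Turing.PartrecToTM2.K' := [.main, .rev, .aux, .stack]
  have hnd : ks.Nodup := by simp [ks]
  have hks : ∀ k, k ∈ ks := by
    intro k
    cases k <;> simp [ks]
  have hlift : ∀ (F : Type) [CommRing F] (l), (FreeAlgebra.lift ℤ
      (FreeAlgebra.ι F : Fin n → FreeAlgebra F (Fin n))).toRingHom (aF os R ℤ e l) =
        aF os R F e l := by
    intro F _ l
    simp [aF]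
  obtain ⟨tf, htf⟩ := exists_terms n (ff os R (aF os R ℤ e))
  obtain ⟨te, hte⟩ := exists_terms n (ee os R (aF os R ℤ e))
  have htf' : ∀ (F : Type) [CommRing F], ncPoly F (sgn F) tf = ff os R (aF os R F e) := by
    intro F _
    rw [htf F]
    have h := map_ff os R (FreeAlgebra.lift ℤ
      (FreeAlgebra.ι F : Fin n → FreeAlgebra F (Fin n))).toRingHom (aF os R ℤ e)
    refine Eq.trans h ?_
    congr 1
    funext l
    exact hlift F l
  have hte' : ∀ (F : Type) [CommRing F], ncPoly F (sgn F) te = ee os R (aF os R F e) := by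
    intro F _
    rw [hte F]
    have h := map_ee os R (FreeAlgebra.lift ℤ
      (FreeAlgebra.ι F : Fin n → FreeAlgebra F (Fin n))).toRingHom (aF os R ℤ e)
    refine Eq.trans h ?_
    congr 1
    funext l
    exact hlift F l
  -- the reduction
  let es : Om Q Turing.PartrecToTM2.K' (Option Turing.PartrecToTM2.Γ') → Fin n := fun ω => e (.s ω)
  let W : ℕ → List (Om Q Turing.PartrecToTM2.K' (Option Turing.PartrecToTM2.Γ')) := fun k =>
    Om.st q0 :: wz ks (inpStk k)
  refine ⟨n, tf.map fun s => ((sgn ℤ s.1, s.2) : ℤ × List (Fin n)), ?_⟩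
  intro F _ C _ c ⟨a, ha⟩ ⟨b, hb⟩ hC
  have hrel : ncPoly F (fun k : ℤ => (k : F)) (tf.map fun s => ((sgn ℤ s.1, s.2) :
      ℤ × List (Fin n))) = ff os R (aF os R F e) := by
    rw [ncPoly_code, ← htf' F]
    congr 1
    funext s
    cases s <;> simp [sgn]
  let t1 : List (C × List (Fin n)) := te.map fun s => (if s.1 then a else b, s.2)
  let t2 : List (C × List (Fin n)) := te.map fun s => (if s.1 then b else a, s.2)
  have ht1 : ncPoly F c t1 = ee os R (aF os R F e) := by
    rw [← hte' F, ncPoly_code F c (fun s : Bool => if s then a else b)]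
    congr 1
    funext s
    cases s <;> simp [sgn, ha, hb]
  have ht2 : ncPoly F c t2 = - ee os R (aF os R F e) := by
    rw [← hte' F, ← ncPoly_neg, ncPoly_code F c (fun s : Bool => if s then b else a)]
    congr 1
    funext s
    cases s <;> simp [sgn, ha, hb]
  have hval : ∀ k : ℕ,
      ncPoly F c ((t1.map fun s => (s.1, (W k).map es ++ s.2)) ++
        (t2.map fun s => (s.1, [es (.st qr)] ++ s.2))) =
      gF os R F e (W k) [Om.st qr] := by
    intro k
    rw [ncPoly_append, ncPoly_prefix, ncPoly_prefix, ht1, ht2]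
    unfold gF
    rw [sub_mul, mul_neg, ← sub_eq_add_neg]
    congr 2
    simp only [wd, List.map_map]
    rfl
  have hiff : ∀ k : ℕ,
      ncPoly F c ((t1.map fun s => (s.1, (W k).map es ++ s.2)) ++
        (t2.map fun s => (s.1, [es (.st qr)] ++ s.2))) ∈
        TwoSidedIdeal.span {ncPoly F (fun k : ℤ => (k : F)) (tf.map fun s => ((sgn ℤ s.1, s.2) :
          ℤ × List (Fin n)))} ↔ Rch δ qr (q0, inpStk k) := by
    intro k
    rw [hval, hrel]
    constructor
    · intro h
      exact reach_of_mem δ qr os R F e hM2 hqr (fun r hr => (hR r).1 hr) ks hnd hks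
        (q0, inpStk k) h
    · intro h
      exact mem_of_reach δ qr os R F e hM1 hos (fun u v huv => (hR (u, v)).2 huv) ks hnd hks
        (q0, inpStk k) h
  apply hund
  have h1 := hcomp Q q0 n es C inferInstance t1 t2 [es (.st qr)]
  have h2 : ComputablePred fun k : ℕ =>
      ncPoly F c ((t1.map fun s => (s.1, (W k).map es ++ s.2)) ++
        (t2.map fun s => (s.1, [es (.st qr)] ++ s.2))) ∈
        TwoSidedIdeal.span {ncPoly F (fun k : ℤ => (k : F)) (tf.map fun s => ((sgn ℤ s.1, s.2) :
          ℤ × List (Fin n)))} := by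
    obtain ⟨inst, h⟩ := hC
    exact ⟨fun a => inst _, h.comp h1⟩
  exact h2.of_eq hiff

end Pool.Agent.Helper48.OR
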