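import Mathlib

/-!
# One-relator algebras: the core construction (MP_b71150_al)

`x b = 1` with `b = z x ^ k + B k`, where `B` is built from arbitrary elements `p 1, …, p k`.
-/

set_option autoImplicit false

namespace Pool.Agent.Helper48.OR

variable {A : Type*} [Ring A]

/-- `B 0 = 0`, `B (j + 1) = p (j + 1) x ^ j + B j (1 - p j x ^ j)`. -/
def B (x : A) (p : ℕ → A) : ℕ → A
  | 0 => 0
  | j + 1 => p (j + 1) * x ^ j + B x p j * (1 - p j * x ^ j)

section module

variable {M : Type*} [AddCommGroup M] [Module A M]

theorem smul_of_lt (x : A) (p : ℕ → A) (u : M) (w : M) (i : ℕ) (h1 : x ^ (i + 1) • u = 0)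
    (h2 : B x p (i + 1) • u = w) : ∀ j, i + 1 ≤ j → B x p j • u = w := by
  intro j hj
  induction j, hj using Nat.le_induction with
  | base => exact h2
  | succ j hj ih =>
    have h3 : x ^ j • u = 0 := by
      obtain ⟨t, rfl⟩ := Nat.exists_eq_add_of_le hj
      rw [add_comm (i + 1) t, pow_add, mul_smul, h1, smul_zero]
    rw [B, add_smul, mul_smul, h3, smul_zero, zero_add, mul_smul, sub_smul, one_smul, mul_smul, h3,
      smul_zero, sub_zero, ih]

/-- Lemma 1: on the kernel of `x` the elements `p i` behave like a right inverse of `x`. -/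
theorem forced (x z : A) (p : ℕ → A) (k : ℕ) (hp : p 0 = 1)
    (hf : x * (z * x ^ k + B x p k) = 1) (v : M) (hv : x • v = 0) :
    ∀ i < k, x • p (i + 1) • v = p i • v ∧ ∀ j ≤ i, x ^ j • p i • v = p (i - j) • v := by
  intro i
  induction i using Nat.strong_induction_on with
  | _ i ih =>
    intro hi
    have hj : ∀ j ≤ i, x ^ j • p i • v = p (i - j) • v := by
      intro j hj
      induction j with
      | zero => simp
      | succ j ihj =>
        rw [pow_succ', mul_smul, ihj (by omega)]
        obtain ⟨t, ht⟩ : ∃ t, i - j = t + 1 := ⟨i - j - 1, by omega⟩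
        rw [ht, (ih t (by omega) (by omega)).1]
        congr 2
        omega
    refine ⟨?_, hj⟩
    have h0 : x ^ i • p i • v = v := by rw [hj i le_rfl, Nat.sub_self, hp, one_smul]
    have h1 : x ^ (i + 1) • p i • v = 0 := by rw [pow_succ', mul_smul, h0, hv]
    have h2 : B x p (i + 1) • p i • v = p (i + 1) • v := by
      rw [B, add_smul, mul_smul, h0, mul_smul, sub_smul, one_smul, mul_smul, h0, sub_self,
        smul_zero, add_zero]
    have h3 := smul_of_lt x p (p i • v) _ i h1 h2 k hi
    have h4 : x ^ k • p i • v = 0 := by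
      obtain ⟨t, rfl⟩ := Nat.exists_eq_add_of_le (show i + 1 ≤ k from hi)
      rw [add_comm (i + 1) t, pow_add, mul_smul, h1, smul_zero]
    have h5 : (x * (z * x ^ k + B x p k)) • p i • v = p i • v := by rw [hf, one_smul]
    rw [mul_smul, add_smul, mul_smul, h4, smul_zero, zero_add, h3] at h5
    exact h5

/-- Lemma 2: the converse of Lemma 1. -/
theorem converse (x : A) (p : ℕ → A) (hp : p 0 = 1) (k : ℕ)
    (h : ∀ v : M, x • v = 0 → ∀ i < k, x • p (i + 1) • v = p i • v) :
    ∀ u : M, x ^ k • u = 0 → x • B x p k • u = u := by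
  induction k with
  | zero =>
    intro u hu
    rw [pow_zero, one_smul] at hu
    rw [hu]
    simp
  | succ k ih =>
    intro u hu
    have ih' := ih (fun v hv i hi => h v hv i (by omega))
    have hv : x • x ^ k • u = 0 := by rw [← mul_smul, ← pow_succ', hu]
    have hpow : ∀ i ≤ k, x ^ i • p i • x ^ k • u = x ^ k • u := by
      intro i
      induction i with
      | zero => intro _; rw [hp, pow_zero, one_smul, one_smul]
      | succ i ihi =>
        intro hi
        rw [pow_succ, mul_smul, h _ hv i (by omega), ihi (by omega)]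
    have h2 : x ^ k • (u - p k • x ^ k • u) = 0 := by
      rw [smul_sub, hpow k le_rfl, sub_self]
    have h3 := ih' _ h2
    have h4 := h _ hv k (by omega)
    rw [B, add_smul, mul_smul, smul_add, h4, mul_smul, sub_smul, one_smul, mul_smul, h3]
    abel

end module

end Pool.Agent.Helper48.OR
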