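import Pool.Agent.Helper48.OR.Core

/-!
# One-relator algebras: finitely presented monoids act on the corner (MP_b71150_al)
-/

set_option autoImplicit false

namespace Pool.Agent.Helper48.OR

/-- The letters of the one-relator algebra. -/
inductive L (Ω : Type) (m : ℕ) : Type
  | x : L Ω m
  | z : L Ω m
  | y (i : Fin m) : L Ω m
  | s (ω : Ω) : L Ω m

/-- `p 0 = 1`, `p (2 i + 1) = x y_i`, `p (2 i + 2) = y_i + σ_i`. -/
def pp {A : Type*} [Ring A] (x : A) (y σ : ℕ → A) : ℕ → A
  | 0 => 1
  | j + 1 => if j % 2 = 0 then x * y (j / 2) else y (j / 2) + σ (j / 2)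

section basic

variable {A : Type*} [Ring A] (x : A) (y σ : ℕ → A)

theorem pp_zero : pp x y σ 0 = 1 := rfl

theorem pp_odd (i : ℕ) : pp x y σ (2 * i + 1) = x * y i := by
  have h : (2 * i) % 2 = 0 := by omega
  have h' : (2 * i) / 2 = i := by omega
  rw [pp, if_pos h, h']

theorem pp_even (i : ℕ) : pp x y σ (2 * i + 1 + 1) = y i + σ i := by
  have h : ¬ (2 * i + 1) % 2 = 0 := by omega
  have h' : (2 * i + 1) / 2 = i := by omega
  rw [pp, if_neg h, h']

variable {M : Type*} [AddCommGroup M] [Module A M]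

theorem forced2 (z : A) (m : ℕ)
    (hf : x * (z * x ^ (2 * m) + B x (pp x y σ) (2 * m)) = 1) (v : M) (hv : x • v = 0) (i : ℕ)
    (hi : i < m) : x • σ i • v = 0 := by
  have h2 := (forced x z _ (2 * m) rfl hf v hv (2 * i + 1) (by omega)).1
  rw [pp_even, pp_odd, add_smul, smul_add, mul_smul] at h2
  exact (add_eq_left (a := x • y i • v)).1 h2

theorem forced1 (z : A) (m : ℕ)
    (hf : x * (z * x ^ (2 * m) + B x (pp x y σ) (2 * m)) = 1) (v : M) (hv : x • v = 0)
    (hm : 0 < m) : x • x • y 0 • v = v := by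
  have h2 := (forced x z _ (2 * m) rfl hf v hv 0 (by omega)).1
  have h3 := pp_odd x y σ 0
  rw [mul_zero] at h3
  rw [h3, pp_zero, one_smul, mul_smul] at h2
  exact h2

theorem converse2 (m : ℕ) (h0 : ∀ v : M, x • v = 0 → x • x • y 0 • v = v)
    (hσ : ∀ v : M, x • v = 0 → ∀ i < m, x • σ i • v = 0)
    (hy : ∀ v : M, x • v = 0 → ∀ i, i + 1 < m → x • x • y (i + 1) • v = y i • v + σ i • v) :
    ∀ u : M, x ^ (2 * m) • u = 0 → x • B x (pp x y σ) (2 * m) • u = u := by
  refine converse x _ rfl (2 * m) ?_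
  intro v hv i hi
  rcases Nat.even_or_odd' i with ⟨j, rfl | rfl⟩
  · rw [pp_odd, mul_smul]
    rcases j with _ | j
    · rw [h0 v hv, mul_zero, pp_zero, one_smul]
    · rw [hy v hv j (by omega), show 2 * (j + 1) = 2 * j + 1 + 1 by ring, pp_even, add_smul]
  · rw [pp_even, pp_odd, add_smul, smul_add, hσ v hv j (by omega), add_zero, mul_smul]

theorem map_B {A' : Type*} [Ring A'] (φ : A →+* A') (p : ℕ → A) (k : ℕ) :
    φ (B x p k) = B (φ x) (fun i => φ (p i)) k := by
  induction k with
  | zero => simp [B]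
  | succ k ih => simp [B, ih]

theorem map_pp {A' : Type*} [Ring A'] (φ : A →+* A') (i : ℕ) :
    φ (pp x y σ i) = pp (φ x) (fun i => φ (y i)) (fun i => φ (σ i)) i := by
  cases i with
  | zero => simp [pp]
  | succ i =>
    by_cases h : i % 2 = 0 <;> simp [pp, h]

end basic

/-! ### the relator -/

section relator

variable {Ω : Type} (os : List Ω) (R : List (List Ω × List Ω))

/-- The number of the letters `y_i`. -/
def num : ℕ := os.length + R.length

/-- The value of a word. -/
def wd {Ω : Type*} {A : Type*} [Monoid A] (a : Ω → A) (u : List Ω) : A := (u.map a).prod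

/-- The list of the polynomials `σ_i`: the letters, and `x y_0 (u - v)` for the relations
`u = v`. -/
def sg {A : Type*} [Ring A] (x y0 : A) (s : Ω → A) : List A :=
  os.map s ++ R.map fun r => x * (y0 * (wd s r.1 - wd s r.2))

/-- The letter `y_i`. -/
def yy {m : ℕ} {A : Type*} [Ring A] (a : L Ω m → A) (i : ℕ) : A :=
  if h : i < m then a (.y ⟨i, h⟩) else 0

/-- The polynomial `b` with `f = x b - 1`. -/
def bb {A : Type*} [Ring A] (a : L Ω (num os R) → A) : A :=
  a .z * a .x ^ (2 * num os R) +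
    B (a .x) (pp (a .x) (yy a)
      (fun i => (sg os R (a .x) (yy a 0) (fun ω => a (.s ω))).getD i 0)) (2 * num os R)

/-- The relator. -/
def ff {A : Type*} [Ring A] (a : L Ω (num os R) → A) : A := a .x * bb os R a - 1

/-- The corner idempotent. -/
def ee {A : Type*} [Ring A] (a : L Ω (num os R) → A) : A := 1 - bb os R a * a .x

theorem map_wd {A A' : Type*} [Monoid A] [Monoid A'] (φ : A →* A') (s : Ω → A) (u : List Ω) :
    φ (wd s u) = wd (fun ω => φ (s ω)) u := by
  simp [wd, map_list_prod, Function.comp_def]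

theorem map_bb {A A' : Type*} [Ring A] [Ring A'] (φ : A →+* A') (a : L Ω (num os R) → A) :
    φ (bb os R a) = bb os R (fun l => φ (a l)) := by
  have hy : ∀ i, φ (yy a i) = yy (fun l => φ (a l)) i := by
    intro i
    by_cases h : i < num os R <;> simp [yy, h]
  have hw : ∀ u, φ (wd (fun ω => a (.s ω)) u) = wd (fun ω => φ (a (.s ω))) u := fun u =>
    map_wd (φ : A →* A') _ u
  have hs : (sg os R (a .x) (yy a 0) (fun ω => a (.s ω))).map φ =
      sg os R (φ (a .x)) (yy (fun l => φ (a l)) 0) (fun ω => φ (a (.s ω))) := by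
    simp [sg, Function.comp_def, hw, hy]
  have hg : ∀ i, φ ((sg os R (a .x) (yy a 0) (fun ω => a (.s ω))).getD i 0) =
      (sg os R (φ (a .x)) (yy (fun l => φ (a l)) 0) (fun ω => φ (a (.s ω)))).getD i 0 := by
    intro i
    rw [← hs]
    have h := List.getD_map (n := i) (d := (0 : A))
      (l := sg os R (a .x) (yy a 0) (fun ω => a (.s ω))) (f := φ)
    rw [map_zero] at h
    exact h.symm
  unfold bb
  simp only [map_add, map_mul, map_pow, map_B, map_pp, hy, hg]

theorem map_ff {A A' : Type*} [Ring A] [Ring A'] (φ : A →+* A') (a : L Ω (num os R) → A) :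
    φ (ff os R a) = ff os R (fun l => φ (a l)) := by
  simp [ff, map_bb]

theorem map_ee {A A' : Type*} [Ring A] [Ring A'] (φ : A →+* A') (a : L Ω (num os R) → A) :
    φ (ee os R a) = ee os R (fun l => φ (a l)) := by
  simp [ee, map_bb]

/-! ### the forced relations -/

theorem getD_sg_lt {A : Type*} [Ring A] (x y0 : A) (s : Ω → A) {i : ℕ} (h : i < num os R) :
    (sg os R x y0 s).getD i 0 ∈ sg os R x y0 s := by
  have h' : i < (sg os R x y0 s).length := by simpa [sg, num] using h
  rw [List.getD_eq_getElem _ _ h']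
  exact List.getElem_mem h'

theorem exists_getD_sg {A : Type*} [Ring A] (x y0 : A) (s : Ω → A) {c : A}
    (h : c ∈ sg os R x y0 s) : ∃ i < num os R, (sg os R x y0 s).getD i 0 = c := by
  obtain ⟨i, hi, rfl⟩ := List.getElem_of_mem h
  refine ⟨i, by simpa [sg, num] using hi, ?_⟩
  rw [List.getD_eq_getElem _ _ hi]

section

variable {A : Type*} [Ring A] (a : L Ω (num os R) → A) (ha : ff os R a = 0)

include ha

theorem x_bb : a .x * bb os R a = 1 := sub_eq_zero.1 ha

theorem x_ee : a .x * ee os R a = 0 := by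
  have h := x_bb os R a ha
  rw [ee, mul_sub, mul_one, ← mul_assoc, h, one_mul, sub_self]

theorem forced_sg {c : A} (hc : c ∈ sg os R (a .x) (yy a 0) (fun ω => a (.s ω))) (v : A)
    (hv : a .x * v = 0) : a .x * (c * v) = 0 := by
  obtain ⟨i, hi, rfl⟩ := exists_getD_sg os R _ _ _ hc
  exact forced2 (M := A) (a .x) (yy a) _ (a .z) (num os R) (x_bb os R a ha) v hv i hi

theorem forced_s {ω : Ω} (hω : ω ∈ os) (v : A) (hv : a .x * v = 0) :
    a .x * (a (.s ω) * v) = 0 := by
  refine forced_sg os R a ha ?_ v hv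
  simp only [sg, List.mem_append, List.mem_map]
  exact Or.inl ⟨ω, hω, rfl⟩

theorem forced_wd (hos : ∀ ω, ω ∈ os) (u : List Ω) (v : A) (hv : a .x * v = 0) :
    a .x * (wd (fun ω => a (.s ω)) u * v) = 0 := by
  induction u with
  | nil => simpa [wd] using hv
  | cons ω u ih =>
    have h := forced_s os R a ha (hos ω) _ ih
    simpa [wd, mul_assoc] using h

theorem forced_rel (hos : ∀ ω, ω ∈ os) {r : List Ω × List Ω} (hr : r ∈ R) (v : A)
    (hv : a .x * v = 0) :
    wd (fun ω => a (.s ω)) r.1 * v = wd (fun ω => a (.s ω)) r.2 * v := by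
  have h1 : a .x * ((wd (fun ω => a (.s ω)) r.1 - wd (fun ω => a (.s ω)) r.2) * v) = 0 := by
    rw [sub_mul, mul_sub, forced_wd os R a ha hos _ v hv, forced_wd os R a ha hos _ v hv, sub_self]
  have hm : 0 < num os R := by
    have := List.length_pos_of_mem hr
    unfold num
    omega
  have h2 := forced1 (M := A) (a .x) (yy a) _ (a .z) (num os R) (x_bb os R a ha) _ h1 hm
  have h3 : a .x * (yy a 0 * (wd (fun ω => a (.s ω)) r.1 - wd (fun ω => a (.s ω)) r.2)) ∈
      sg os R (a .x) (yy a 0) (fun ω => a (.s ω)) := by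
    simp only [sg, List.mem_append, List.mem_map]
    exact Or.inr ⟨r, hr, rfl⟩
  have h4 := forced_sg os R a ha h3 v hv
  have h5 : a .x * (a .x * (yy a 0 *
      ((wd (fun ω => a (.s ω)) r.1 - wd (fun ω => a (.s ω)) r.2) * v))) = 0 := by
    simpa [mul_assoc] using h4
  have h6 : (wd (fun ω => a (.s ω)) r.1 - wd (fun ω => a (.s ω)) r.2) * v = 0 := by
    rw [← h2]
    exact h5
  rw [sub_mul] at h6
  exact sub_eq_zero.1 h6

end

/-! ### the module -/

section mod

variable {F : Type*} [CommRing F] {N : Type*} [AddCommGroup N] [Module F N]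

/-- The left shift. -/
def xs : Module.End F (ℕ → N) where
  toFun g := fun i => g (i + 1)
  map_add' _ _ := rfl
  map_smul' _ _ := rfl

/-- The right shift. -/
def ss : Module.End F (ℕ → N) where
  toFun g := fun i => match i with
    | 0 => 0
    | i + 1 => g i
  map_add' g h := by
    funext i
    cases i <;> simp
  map_smul' c g := by
    funext i
    cases i <;> simp

/-- The embedding in position `0`. -/
def io : N →ₗ[F] (ℕ → N) where
  toFun n := fun i => match i with
    | 0 => n
    | _ + 1 => 0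
  map_add' g h := by
    funext i
    cases i <;> simp
  map_smul' c g := by
    funext i
    cases i <;> simp

/-- The coordinate in position `0`. -/
def p0 : (ℕ → N) →ₗ[F] N where
  toFun g := g 0
  map_add' _ _ := rfl
  map_smul' _ _ := rfl

theorem p0_io (n : N) : (p0 : (ℕ → N) →ₗ[F] N) ((io : N →ₗ[F] (ℕ → N)) n) = n := rfl

theorem xs_ss (g : ℕ → N) : (xs : Module.End F (ℕ → N)) ((ss : Module.End F (ℕ → N)) g) = g := rfl

theorem xs_io (n : N) : (xs : Module.End F (ℕ → N)) ((io : N →ₗ[F] (ℕ → N)) n) = 0 := rfl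

theorem eq_io {g : ℕ → N} (h : (xs : Module.End F (ℕ → N)) g = 0) :
    (io : N →ₗ[F] (ℕ → N)) (g 0) = g := by
  funext i
  cases i with
  | zero => rfl
  | succ i => exact (congrFun h i).symm

variable (s0 : Ω → Module.End F N)

/-- The action of the letters `s ω`. -/
def sM (ω : Ω) : Module.End F (ℕ → N) := io ∘ₗ s0 ω ∘ₗ p0

/-- The action of `y_0`. -/
def y0M : Module.End F (ℕ → N) := ss ∘ₗ ss ∘ₗ io ∘ₗ p0

/-- The polynomials `σ_i` in the module. -/
def sgM (i : ℕ) : Module.End F (ℕ → N) := (sg os R (xs) (y0M) (sM s0)).getD i 0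

/-- The action of `y_i`. -/
def yM : ℕ → Module.End F (ℕ → N)
  | 0 => y0M
  | i + 1 => ss ∘ₗ ss ∘ₗ (yM i + sgM os R s0 i) ∘ₗ io ∘ₗ p0

/-- The action of `B`. -/
def BM : Module.End F (ℕ → N) :=
  B (xs : Module.End F (ℕ → N)) (pp xs (yM os R s0) (sgM os R s0)) (2 * num os R)

/-- The action of the letters. -/
def aM : L Ω (num os R) → Module.End F (ℕ → N)
  | .x => xs
  | .z => ss * (1 - xs * BM os R s0) * ss ^ (2 * num os R)
  | .y i => yM os R s0 i
  | .s ω => sM s0 ω

theorem wd_sM (u : List Ω) (n : N) :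
    wd (sM s0) u ((io : N →ₗ[F] (ℕ → N)) n) = (io : N →ₗ[F] (ℕ → N)) (wd s0 u n) := by
  induction u with
  | nil => simp [wd]
  | cons ω u ih =>
    have h : wd (sM s0) (ω :: u) = sM s0 ω * wd (sM s0) u := by simp [wd]
    have h' : wd s0 (ω :: u) = s0 ω * wd s0 u := by simp [wd]
    rw [h, h', Module.End.mul_apply, ih, Module.End.mul_apply]
    rfl

theorem xs_pow_ss_pow (k : ℕ) (g : ℕ → N) :
    ((xs : Module.End F (ℕ → N)) ^ k) (((ss : Module.End F (ℕ → N)) ^ k) g) = g := by
  induction k generalizing g with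
  | zero => rfl
  | succ k ih =>
    rw [pow_succ, pow_succ', Module.End.mul_apply, Module.End.mul_apply, xs_ss, ih]

variable (hR : ∀ r ∈ R, wd s0 r.1 = wd s0 r.2)

include hR

theorem sgM_io (i : ℕ) (n : N) :
    (xs : Module.End F (ℕ → N)) (sgM os R s0 i ((io : N →ₗ[F] (ℕ → N)) n)) = 0 := by
  by_cases hi : i < num os R
  · have h := getD_sg_lt os R (xs : Module.End F (ℕ → N)) y0M (sM s0) hi
    unfold sgM
    rw [sg, List.mem_append, List.mem_map, List.mem_map] at h
    rcases h with ⟨ω, _, h⟩ | ⟨r, hr, h⟩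
    · rw [sg, ← h]
      rfl
    · rw [sg, ← h]
      simp only [Module.End.mul_apply, LinearMap.sub_apply, wd_sM, hR r hr, sub_self, map_zero]
  · have h : sgM os R s0 i = 0 := by
      unfold sgM
      apply List.getD_eq_default
      simp only [sg, List.length_append, List.length_map]
      simpa [num] using hi
    rw [h]
    simp

theorem BM_spec (u : ℕ → N) (hu : ((xs : Module.End F (ℕ → N)) ^ (2 * num os R)) u = 0) :
    (xs : Module.End F (ℕ → N)) (BM os R s0 u) = u := by
  refine converse2 (M := ℕ → N) (xs : Module.End F (ℕ → N)) (yM os R s0) (sgM os R s0)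
    (num os R) ?_ ?_ ?_ u hu
  · intro v hv
    have h := eq_io (F := F) (g := v) hv
    show xs (xs (y0M v)) = v
    unfold y0M
    simp only [LinearMap.comp_apply, xs_ss]
    exact h
  · intro v hv i _
    have h := eq_io (F := F) (g := v) hv
    rw [← h]
    exact sgM_io os R s0 hR i _
  · intro v hv i _
    have h := eq_io (F := F) (g := v) hv
    show xs (xs ((ss ∘ₗ ss ∘ₗ (yM os R s0 i + sgM os R s0 i) ∘ₗ io ∘ₗ p0) v)) =
      yM os R s0 i v + sgM os R s0 i v
    simp only [LinearMap.comp_apply, xs_ss, LinearMap.add_apply]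
    rw [show (io : N →ₗ[F] (ℕ → N)) (p0 v) = v from h]

theorem ff_aM : ff os R (aM os R s0) = 0 := by
  have hy : ∀ i < num os R, yy (aM os R s0) i = yM os R s0 i := by
    intro i hi
    simp [yy, hi, aM]
  -- `B` only depends on the values of `p`
  have hB : ∀ (x : Module.End F (ℕ → N)) (p q : ℕ → Module.End F (ℕ → N)) (k : ℕ),
      (∀ i ≤ k, p i = q i) → B x p k = B x q k := by
    intro x p q k
    induction k with
    | zero => intro _; rfl
    | succ k ih =>
      intro h
      rw [B, B, h _ le_rfl, h k (by omega), ih (fun i hi => h i (by omega))]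
  have hBM : bb os R (aM os R s0) =
      aM os R s0 .z * aM os R s0 .x ^ (2 * num os R) + BM os R s0 := by
    unfold bb BM
    congr 1
    refine hB _ _ _ _ ?_
    intro i hi
    rcases Nat.eq_zero_or_pos i with rfl | hi0
    · rfl
    obtain ⟨j, rfl⟩ : ∃ j, i = j + 1 := ⟨i - 1, by omega⟩
    have hj : j / 2 < num os R := by omega
    have h0 : 0 < num os R := by omega
    have e1 : (aM os R s0) .x = xs := rfl
    have e2 : (fun ω => aM os R s0 (.s ω)) = sM s0 := rfl
    have e3 : yM os R s0 0 = y0M := rfl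
    by_cases h : j % 2 = 0
    · simp only [pp, h, if_true, hy _ hj, e1]
    · simp only [pp, h, if_false, hy _ hj, hy 0 h0, e1, e2, e3]
      rfl
  rw [ff, hBM]
  refine LinearMap.ext fun u => ?_
  have h1 : (xs : Module.End F (ℕ → N)) ^ (2 * num os R) *
      (ss : Module.End F (ℕ → N)) ^ (2 * num os R) = 1 :=
    LinearMap.ext fun g => xs_pow_ss_pow _ g
  have h2 : ((xs : Module.End F (ℕ → N)) ^ (2 * num os R))
      (u - ((ss : Module.End F (ℕ → N)) ^ (2 * num os R))
        (((xs : Module.End F (ℕ → N)) ^ (2 * num os R)) u)) = 0 := by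
    rw [map_sub, xs_pow_ss_pow, sub_self]
  have h3 := BM_spec os R s0 hR _ h2
  rw [map_sub, map_sub, sub_eq_sub_iff_sub_eq_sub] at h3
  show (xs * (ss * (1 - xs * BM os R s0) * ss ^ (2 * num os R) * xs ^ (2 * num os R) +
    BM os R s0) - 1 : Module.End F (ℕ → N)) u = 0
  simp only [LinearMap.sub_apply, Module.End.mul_apply, LinearMap.add_apply, map_add, xs_ss,
    Module.End.one_apply]
  have h4 := h3
  generalize (xs : Module.End F (ℕ → N)) (BM os R s0 u) = X at *
  generalize ((ss : Module.End F (ℕ → N)) ^ (2 * num os R))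
        (((xs : Module.End F (ℕ → N)) ^ (2 * num os R)) u) = Y at *
  generalize (xs : Module.End F (ℕ → N)) (BM os R s0 Y) = Z at *
  have h5 : Y - Z + X - u = Y - Z + (X - u) := by abel
  rw [h5, h4]
  abel

omit hR in
theorem ee_aM (n : N) : ee os R (aM os R s0) ((io : N →ₗ[F] (ℕ → N)) n) =
    (io : N →ₗ[F] (ℕ → N)) n := by
  rw [ee, LinearMap.sub_apply, Module.End.mul_apply]
  have h : aM os R s0 .x ((io : N →ₗ[F] (ℕ → N)) n) = 0 := xs_io (F := F) n
  rw [h, map_zero, sub_zero]
  rfl

end mod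

end relator

end Pool.Agent.Helper48.OR
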