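import Pool.Agent.Helper48.OR.Defs

set_option autoImplicit false

namespace Pool.Agent.Helper48.OR

open Pool.Agent.Helper91.SG

section

variable {Q K A : Type} [DecidableEq K] {δ : Q → Cmd Q K A} {qr : Q} {E : Type} [Monoid E]
  {T : Om Q K A → E}

/-- value of a word -/
def vw (T : Om Q K A → E) (u : List (Om Q K A)) : E := (u.map T).prod

/-- value of stack `k` -/
def vs (T : Om Q K A → E) (k : K) (l : List A) : E := (l.map fun a => T (.lt k a)).prod

theorem vw_wz (ks : List K) (z : K → List A) :
    vw T (wz ks z) = (ks.map fun k => vs T k (z k)).prod := by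
  induction ks with
  | nil => simp [vw, wz]
  | cons k ks ih =>
    have h : wz (Q := Q) (k :: ks) z = (z k).map (Om.lt k) ++ wz ks z := by simp [wz]
    rw [h, vw, List.map_append, List.prod_append, List.map_cons, List.prod_cons]
    unfold vw at ih
    rw [ih]
    simp [vs, Function.comp_def]

variable (hT : ∀ u v, Rel δ qr u v → (u.map T).prod = (v.map T).prod)

include hT

theorem comm_vs (k : K) (a : A) (l : K) (h : k ≠ l) (w : List A) :
    T (.lt k a) * vs T l w = vs T l w * T (.lt k a) := by
  induction w with
  | nil => simp [vs]
  | cons b w ih =>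
    have h1 := hT _ _ (Rel.comm k a l b h)
    simp only [List.map_cons, List.map_nil, List.prod_cons, List.prod_nil, mul_one] at h1
    have h2 : vs T l (b :: w) = T (.lt l b) * vs T l w := by simp [vs]
    rw [h2, ← mul_assoc, h1, mul_assoc, ih, mul_assoc]

theorem prod_update (ks : List K) (hnd : ks.Nodup) (z : K → List A) (k : K) (hk : k ∈ ks) (a : A) :
    (ks.map fun j => vs T j (Function.update z k (a :: z k) j)).prod =
      T (.lt k a) * (ks.map fun j => vs T j (z j)).prod := by
  induction ks with
  | nil => simp at hk
  | cons j ks ih =>
    rw [List.map_cons, List.map_cons, List.prod_cons, List.prod_cons]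
    rw [List.nodup_cons] at hnd
    rcases List.mem_cons.1 hk with rfl | hk'
    · have h1 : (ks.map fun j => vs T j (Function.update z k (a :: z k) j)) =
          ks.map fun j => vs T j (z j) := by
        refine List.map_congr_left fun j hj => ?_
        have : j ≠ k := fun h => hnd.1 (h ▸ hj)
        rw [Function.update_of_ne this]
      rw [h1, Function.update_self]
      simp [vs, mul_assoc]
    · have hjk : j ≠ k := fun h => hnd.1 (h ▸ hk')
      rw [ih hnd.2 hk', Function.update_of_ne hjk, ← mul_assoc, ← mul_assoc,
        comm_vs hT k a j hjk.symm]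

theorem step_eq (ks : List K) (hnd : ks.Nodup) (hks : ∀ k, k ∈ ks) (c c' : Q × (K → List A))
    (h : step δ c = some c') :
    T (.st c.1) * vw T (wz ks c.2) = T (.st c'.1) * vw T (wz ks c'.2) := by
  obtain ⟨q, z⟩ := c
  simp only [step] at h
  rw [vw_wz, vw_wz]
  cases hq : δ q with
  | halt => rw [hq] at h; simp at h
  | jump q' =>
    rw [hq] at h
    simp only [Option.some.injEq] at h
    subst h
    have h1 := hT _ _ (Rel.jump q q' hq)
    simp only [List.map_cons, List.map_nil, List.prod_cons, List.prod_nil, mul_one] at h1
    rw [h1]
  | push k a q' =>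
    rw [hq] at h
    simp only [Option.some.injEq] at h
    subst h
    have h1 := hT _ _ (Rel.push q k a q' hq)
    simp only [List.map_cons, List.map_nil, List.prod_cons, List.prod_nil, mul_one] at h1
    rw [prod_update hT ks hnd z k (hks k) a, ← mul_assoc, ← h1]
  | pop k f =>
    rw [hq] at h
    simp only at h
    cases hz : z k with
    | nil => rw [hz] at h; simp at h
    | cons a l =>
      rw [hz] at h
      simp only [Option.some.injEq] at h
      subst h
      have h1 := hT _ _ (Rel.pop q k f a hq)
      simp only [List.map_cons, List.map_nil, List.prod_cons, List.prod_nil, mul_one] at h1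
      have h2 := prod_update hT ks hnd (Function.update z k l) k (hks k) a
      have h3 : Function.update (Function.update z k l) k (a :: Function.update z k l k) = z := by
        rw [Function.update_self, Function.update_idem, ← hz, Function.update_eq_self]
      rw [h3] at h2
      show T (.st q) * (ks.map fun j => vs T j (z j)).prod = _
      rw [h2, ← mul_assoc, h1]

theorem final_eq (ks : List K) (z : K → List A) :
    T (.st qr) * vw T (wz ks z) = T (.st qr) := by
  rw [vw_wz]
  have h0 : ∀ k w, T (.st qr) * vs T k w = T (.st qr) := by
    intro k w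
    induction w with
    | nil => simp [vs]
    | cons a w ih =>
      have h1 := hT _ _ (Rel.halt k a)
      simp only [List.map_cons, List.map_nil, List.prod_cons, List.prod_nil, mul_one] at h1
      have h2 : vs T k (a :: w) = T (.lt k a) * vs T k w := by simp [vs]
      rw [h2, ← mul_assoc, h1, ih]
  induction ks with
  | nil => simp
  | cons k ks ih => rw [List.map_cons, List.prod_cons, ← mul_assoc, h0, ih]

end

theorem m1 : StM1 := by
  intro Q K A _ δ qr E _ T ks c hT hnd hks ⟨c', h1, h2⟩
  have h3 : T (.st c.1) * vw T (wz ks c.2) = T (.st qr) := by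
    induction h1 using Relation.ReflTransGen.head_induction_on with
    | refl =>
      rw [h2]
      exact final_eq hT ks _
    | head h _ ih => rw [step_eq hT ks hnd hks _ _ h, ih]
  simpa [vw] using h3

end Pool.Agent.Helper48.OR
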