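import Pool.Agent.Helper48.OR.Defs

set_option autoImplicit false

namespace Pool.Agent.Helper48.OR

open Pool.Agent.Helper91.SG

section

variable {Q K A : Type} [DecidableEq K] {δ : Q → Cmd Q K A} {qr : Q}

theorem rch_self (z : K → List A) : Rch δ qr (qr, z) := ⟨(qr, z), .refl, rfl⟩

theorem rch_step (hqr : δ qr = .halt) {c c' : Q × (K → List A)} (h : step δ c = some c') :
    Rch δ qr c ↔ Rch δ qr c' := by
  constructor
  · rintro ⟨d, h1, h2⟩
    rcases Relation.ReflTransGen.cases_head h1 with rfl | ⟨c'', h3, h4⟩
    · simp [step, h2, hqr] at h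
    · rw [h] at h3
      cases Option.some.inj h3
      exact ⟨d, h4, h2⟩
  · rintro ⟨d, h1, h2⟩
    exact ⟨d, h1.head h, h2⟩

end

section

variable {Q K A : Type} [DecidableEq K] (δ : Q → Cmd Q K A) (qr : Q) (F : Type) [CommRing F]

open Classical in
/-- value of a configuration -/
noncomputable def chi (q : Q) : ((K → List A) →₀ F) →ₗ[F] F :=
  Finsupp.linearCombination F (fun z => if Rch δ qr (q, z) then (1 : F) else 0)

/-- the push map -/
noncomputable def pu (k : K) (a : A) : ((K → List A) →₀ F) →ₗ[F] ((K → List A) →₀ F) :=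
  Finsupp.lmapDomain F F (fun z => Function.update z k (a :: z k))

/-- The action of the letters. -/
noncomputable def s2 : Om Q K A → Module.End F (((K → List A) →₀ F) × F)
  | .st q => LinearMap.inr F _ _ ∘ₗ chi δ qr F q ∘ₗ LinearMap.fst F _ _
  | .lt k a => LinearMap.inl F _ _ ∘ₗ pu F k a ∘ₗ LinearMap.fst F _ _

theorem pu_single (k : K) (a : A) (z : K → List A) (c : F) :
    pu F k a (Finsupp.single z c) = Finsupp.single (Function.update z k (a :: z k)) c := by
  simp [pu, Finsupp.mapDomain_single]

open Classical in
theorem chi_single (q : Q) (z : K → List A) (c : F) :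
    chi δ qr F q (Finsupp.single z c) = if Rch δ qr (q, z) then c else 0 := by
  simp [chi, Finsupp.linearCombination_single]

theorem st_mul_lt (q : Q) (k : K) (a : A) :
    s2 δ qr F (.st q) * s2 δ qr F (.lt k a) =
      LinearMap.inr F _ _ ∘ₗ (chi δ qr F q ∘ₗ pu F k a) ∘ₗ LinearMap.fst F _ _ := by
  refine LinearMap.ext fun u => ?_
  rfl

theorem lt_mul_lt (k : K) (a : A) (l : K) (b : A) :
    s2 δ qr F (.lt k a) * s2 δ qr F (.lt l b) =
      LinearMap.inl F _ _ ∘ₗ (pu F k a ∘ₗ pu F l b) ∘ₗ LinearMap.fst F _ _ := by
  refine LinearMap.ext fun u => ?_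
  rfl

theorem rel_s2 (hqr : δ qr = .halt) (u v : List (Om Q K A)) (h : Rel δ qr u v) :
    (u.map (s2 δ qr F)).prod = (v.map (s2 δ qr F)).prod := by
  classical
  cases h with
  | jump q q' h =>
    have h1 : chi δ qr F q = chi δ qr F q' := by
      refine Finsupp.lhom_ext fun z c => ?_
      rw [chi_single, chi_single]
      have h2 : Rch δ qr (q, z) ↔ Rch δ qr (q', z) := rch_step hqr (by simp [step, h])
      simp only [h2]
    simp [s2, h1]
  | push q k a q' h =>
    have h1 : chi δ qr F q = chi δ qr F q' ∘ₗ pu F k a := by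
      refine Finsupp.lhom_ext fun z c => ?_
      rw [LinearMap.comp_apply, pu_single, chi_single, chi_single]
      have h2 : Rch δ qr (q, z) ↔ Rch δ qr (q', Function.update z k (a :: z k)) :=
        rch_step hqr (by simp [step, h])
      simp only [h2]
    simp only [List.map_cons, List.map_nil, List.prod_cons, List.prod_nil, mul_one]
    rw [st_mul_lt, ← h1]
    rfl
  | pop q k f a h =>
    have h1 : chi δ qr F q ∘ₗ pu F k a = chi δ qr F (f a) := by
      refine Finsupp.lhom_ext fun z c => ?_
      rw [LinearMap.comp_apply, pu_single, chi_single, chi_single]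
      have h2 : Rch δ qr (q, Function.update z k (a :: z k)) ↔ Rch δ qr (f a, z) :=
        rch_step hqr (by simp [step, h])
      simp only [h2]
    simp only [List.map_cons, List.map_nil, List.prod_cons, List.prod_nil, mul_one]
    rw [st_mul_lt, h1]
    rfl
  | halt k a =>
    have h1 : chi δ qr F qr ∘ₗ pu F k a = chi δ qr F qr := by
      refine Finsupp.lhom_ext fun z c => ?_
      rw [LinearMap.comp_apply, pu_single, chi_single, chi_single, if_pos (rch_self _),
        if_pos (rch_self _)]
    simp only [List.map_cons, List.map_nil, List.prod_cons, List.prod_nil, mul_one]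
    rw [st_mul_lt, h1]
    rfl
  | comm k a l b h =>
    have h1 : pu (K := K) (A := A) F k a ∘ₗ pu F l b = pu F l b ∘ₗ pu F k a := by
      refine Finsupp.lhom_ext fun z c => ?_
      rw [LinearMap.comp_apply, LinearMap.comp_apply, pu_single, pu_single, pu_single, pu_single,
        Function.update_of_ne h, Function.update_of_ne h.symm, Function.update_comm h.symm]
    simp only [List.map_cons, List.map_nil, List.prod_cons, List.prod_nil, mul_one]
    rw [lt_mul_lt, lt_mul_lt, h1]

theorem lt_word (k : K) (l : List A) (z : K → List A) (c : F) :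
    ((l.map (Om.lt (Q := Q) k)).map (s2 δ qr F)).prod (Finsupp.single z c, 0) =
      (Finsupp.single (Function.update z k (l ++ z k)) c, 0) := by
  induction l with
  | nil => simp
  | cons a l ih =>
    rw [List.map_cons, List.map_cons, List.prod_cons, Module.End.mul_apply, ih]
    show (pu F k a (Finsupp.single (Function.update z k (l ++ z k)) c), (0 : F)) = _
    rw [pu_single]
    simp

theorem wz_word (ks : List K) (hnd : ks.Nodup) (z : K → List A) (c : F) :
    ((wz (Q := Q) ks z).map (s2 δ qr F)).prod (Finsupp.single (fun _ => []) c, 0) =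
      (Finsupp.single (fun k => if k ∈ ks then z k else []) c, 0) := by
  induction ks with
  | nil => simp [wz]
  | cons k ks ih =>
    have h : wz (Q := Q) (k :: ks) z = (z k).map (Om.lt k) ++ wz ks z := by simp [wz]
    rw [List.nodup_cons] at hnd
    rw [h, List.map_append, List.prod_append, Module.End.mul_apply, ih hnd.2, lt_word]
    congr 2
    funext j
    by_cases hj : j = k
    · subst hj
      simp [hnd.1]
    · rw [Function.update_of_ne hj]
      simp [hj]

end

theorem m2 : StM2 := by
  classical
  intro Q K A _ δ qr F _ _ hqr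
  refine ⟨((K → List A) →₀ F) × F, inferInstance, inferInstance, s2 δ qr F,
    (Finsupp.single (fun _ => []) 1, 0), rel_s2 δ qr F hqr, ?_⟩
  intro ks c hnd hks h
  rw [List.map_cons, List.prod_cons, Module.End.mul_apply, wz_word δ qr F ks hnd] at h
  have h1 : (fun k => if k ∈ ks then c.2 k else []) = c.2 := by
    funext k
    simp [hks k]
  rw [h1] at h
  have h2 : chi δ qr F c.1 (Finsupp.single c.2 1) =
      chi δ qr F qr (Finsupp.single (fun _ => []) 1) := congrArg Prod.snd h
  rw [chi_single, chi_single, if_pos (rch_self _)] at h2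
  by_contra h3
  rw [if_neg h3] at h2
  exact zero_ne_one h2

end Pool.Agent.Helper48.OR
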