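import Pool.Agent.Helper48.OR.Asm
import Pool.Agent.Helper48.OR.M1
import Pool.Agent.Helper48.OR.M2
import Pool.Agent.Helper32.OR.M3

set_option autoImplicit false

namespace Pool.Agent.Helper48.OR

theorem top : StFinal := final m1 m2 Pool.Agent.Helper32.OR.m3

end Pool.Agent.Helper48.OR
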